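import Mathlib

namespace Pool.Agent.Results.MP_5333ad_co.Boxes

open Finset

/-- The edge boundary of `S`: lattice edges with exactly one endpoint in `S`. -/
def bdry {d : ℕ} (S : Finset (Fin d → ℤ)) : Set (Sym2 (Fin d → ℤ)) :=
  {e | ∃ x y : Fin d → ℤ, e = s(x, y) ∧ ∑ i, |x i - y i| = 1 ∧ x ∈ S ∧ y ∉ S}

/-- The cube `a + {0, ..., k-1}^d`. -/
noncomputable def cube {d : ℕ} (a : Fin d → ℤ) (k : ℕ) : Finset (Fin d → ℤ) :=
  Fintype.piFinset fun i => Finset.Ico (a i) (a i + k)

lemma nbr {d : ℕ} (x y : Fin d → ℤ) (h : ∑ i, |x i - y i| = 1) :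
    ∃ i, y = x + Pi.single i 1 ∨ y = x - Pi.single i 1 := by
  classical
  have h1 : ∃ i, x i ≠ y i := by
    by_contra hc
    push Not at hc
    simp [hc] at h
  obtain ⟨i, hi⟩ := h1
  have h2 := Finset.add_sum_erase (Finset.univ) (fun j => |x j - y j|) (Finset.mem_univ i)
  have h3 : 1 ≤ |x i - y i| := Int.one_le_abs (sub_ne_zero.mpr hi)
  have h4 : 0 ≤ ∑ j ∈ Finset.univ.erase i, |x j - y j| := Finset.sum_nonneg fun j _ => abs_nonneg _
  have h5 : ∑ j ∈ Finset.univ.erase i, |x j - y j| = 0 := by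
    omega
  have h6 : |x i - y i| = 1 := by omega
  have h7 : ∀ j, j ≠ i → x j = y j := by
    intro j hj
    have := (Finset.sum_eq_zero_iff_of_nonneg (fun j _ => abs_nonneg (x j - y j))).1 h5 j
      (by simp [hj])
    exact sub_eq_zero.mp (abs_eq_zero.mp this)
  refine ⟨i, ?_⟩
  rcases abs_eq (by norm_num : (0:ℤ) ≤ 1) |>.1 h6 with h | h
  · right
    funext j
    by_cases hj : j = i
    · subst hj; simp; omega
    · simp [hj, h7 j hj]
  · left
    funext j
    by_cases hj : j = i
    · subst hj; simp; omega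
    · simp [hj, h7 j hj]

noncomputable def box {d : ℕ} (s : Fin d → ℕ) : Finset (Fin d → ℤ) :=
  Fintype.piFinset fun i => Finset.Ico (0:ℤ) (s i)

lemma card_box {d : ℕ} (s : Fin d → ℕ) : (box s).card = ∏ i, s i := by
  simp [box, Fintype.card_piFinset]

lemma card_face {d : ℕ} (s : Fin d → ℕ) (i : Fin d) (v : ℤ) (hs : 0 < s i) :
    (((box s).filter fun x => x i = v).card : ℝ) ≤ (∏ j, s j : ℕ) / (s i : ℝ) := by
  classical
  have hpos : (0:ℝ) < s i := by exact_mod_cast hs
  rw [le_div_iff₀ hpos]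
  have := Fintype.card_filter_piFinset_eq (fun i => Finset.Ico (0:ℤ) (s i)) i v
  unfold box
  rw [this]
  split_ifs with h
  · have e : ∏ j, s j = (∏ j ∈ Finset.univ.erase i, s j) * s i :=
      (Finset.prod_erase_mul _ _ (Finset.mem_univ i)).symm
    rw [e]
    simp
  · simp only [Nat.cast_zero, zero_mul]; positivity

lemma bdry_box {d : ℕ} (s : Fin d → ℕ) (hs : ∀ i, 0 < s i) :
    (bdry (box s)).Finite ∧
      ((bdry (box s)).ncard : ℝ) ≤ ∑ i, 2 * ((∏ j, s j : ℕ) / (s i : ℝ)) := by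
  classical
  set T : Finset (Sym2 (Fin d → ℤ)) := Finset.univ.biUnion fun i =>
    (((box s).filter fun x => x i = 0).image fun x => s(x, x - Pi.single i 1)) ∪
    (((box s).filter fun x => x i = (s i : ℤ) - 1).image fun x => s(x, x + Pi.single i 1)) with hT
  have hsub : bdry (box s) ⊆ (T : Set _) := by
    rintro e ⟨x, y, rfl, h, hx, hy⟩
    obtain ⟨i, hi⟩ := nbr x y h
    simp only [hT, Finset.coe_biUnion, Finset.coe_univ, Set.mem_univ, Set.iUnion_true,
      Set.mem_iUnion, Finset.mem_coe, Finset.mem_union, Finset.mem_image, Finset.mem_filter]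
    refine ⟨i, ?_⟩
    have hx' := hx
    simp only [box, Fintype.mem_piFinset, Finset.mem_Ico] at hx' hy
    rcases hi with rfl | rfl
    · right
      refine ⟨x, ⟨hx, ?_⟩, rfl⟩
      by_contra hc
      apply hy
      intro j
      by_cases hj : j = i
      · subst hj; have := hx' j; simp; omega
      · have := hx' j; simpa [hj] using this
    · left
      refine ⟨x, ⟨hx, ?_⟩, rfl⟩
      by_contra hc
      apply hy
      intro j
      by_cases hj : j = i
      · subst hj; have := hx' j; simp; omega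
      · have := hx' j; simpa [hj] using this
  refine ⟨T.finite_toSet.subset hsub, ?_⟩
  have h1 : (bdry (box s)).ncard ≤ T.card := by
    rw [← Set.ncard_coe_finset]; exact Set.ncard_le_ncard hsub T.finite_toSet
  have h2 : (T.card : ℝ) ≤ ∑ i, 2 * ((∏ j, s j : ℕ) / (s i : ℝ)) := by
    refine le_trans (Nat.cast_le.mpr Finset.card_biUnion_le) ?_
    rw [Nat.cast_sum]
    refine Finset.sum_le_sum fun i _ => ?_
    have a1 := card_face s i 0 (hs i)
    have a2 := card_face s i (s i - 1) (hs i)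
    have a3 := Finset.card_union_le
      (((box s).filter fun x => x i = 0).image fun x => s(x, x - Pi.single i 1))
      (((box s).filter fun x => x i = (s i : ℤ) - 1).image fun x => s(x, x + Pi.single i 1))
    have a4 := Finset.card_image_le (s := (box s).filter fun x => x i = 0)
      (f := fun x => s(x, x - Pi.single i 1))
    have a5 := Finset.card_image_le (s := (box s).filter fun x => x i = (s i : ℤ) - 1)
      (f := fun x => s(x, x + Pi.single i 1))
    have a6 := a3.trans (Nat.add_le_add a4 a5)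
    have a7 := (Nat.cast_le (α := ℝ)).mpr a6
    rw [Nat.cast_add] at a7
    linarith
  exact le_trans (by exact_mod_cast h1) h2

lemma card_cube {d : ℕ} (a : Fin d → ℤ) (k : ℕ) : (cube a k).card = k ^ d := by
  simp [cube, Fintype.card_piFinset]

lemma gap (m k : ℕ) (hm : 1 ≤ m) :
    2 * k ^ (m + m) ≤ m ^ m * (m + 1) ^ m ∨ 2 * (m ^ m * (m + 1) ^ m) ≤ k ^ (m + m) := by
  have key : 2 * m ^ m ≤ (m + 1) ^ m := by
    have h := one_add_mul_le_pow (a := (1 / m : ℝ)) (by
      have : (0:ℝ) ≤ 1 / m := by positivity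
      linarith) m
    have hm' : (0:ℝ) < m := by exact_mod_cast hm
    have e1 : (1 + (m:ℝ) * (1 / m)) = 2 := by field_simp; norm_num
    have e2 : (1 + 1 / (m:ℝ)) ^ m = (m + 1) ^ m / m ^ m := by
      rw [← div_pow]; congr 1; field_simp
    rw [e1, e2, le_div_iff₀ (by positivity)] at h
    exact_mod_cast h
  rcases le_or_gt k m with h | h
  · left
    calc 2 * k ^ (m + m) ≤ 2 * m ^ (m + m) := by gcongr
      _ = m ^ m * (2 * m ^ m) := by ring
      _ ≤ _ := by gcongr
  · right
    calc 2 * (m ^ m * (m + 1) ^ m) = (2 * m ^ m) * (m + 1) ^ m := by ring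
      _ ≤ (m + 1) ^ m * (m + 1) ^ m := by gcongr
      _ = (m + 1) ^ (m + m) := by ring
      _ ≤ _ := by gcongr; omega

theorem result : ∀ c : ℝ, 0 < c → ∀ η : ℝ, 0 < η →
    ∃ (d : ℕ) (ε : ℝ) (S : Finset (Fin d → ℤ)), 1 ≤ d ∧ 0 < ε ∧ ε < η ∧ S.Nonempty ∧
      (bdry S).Finite ∧
      ((bdry S).ncard : ℝ) ≤ 2 * d * (S.card : ℝ) ^ (((d : ℝ) - 1) / d) * (1 + ε) ∧
      ∀ (a : Fin d → ℤ) (k : ℕ), 1 ≤ k →
        c * √(d * ε) * S.card < ((symmDiff S (cube a k)).card : ℝ) := by
  intro c hc η hη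
  obtain ⟨m, hm⟩ := exists_nat_gt (max (c ^ 2) (max 1 (1 / η)))
  have hm1 : c ^ 2 < m := lt_of_le_of_lt (le_max_left _ _) hm
  have hm2 : (1:ℝ) < m := lt_of_le_of_lt ((le_max_left _ _).trans (le_max_right _ _)) hm
  have hm3 : 1 / η < m := lt_of_le_of_lt ((le_max_right _ _).trans (le_max_right _ _)) hm
  have hm0 : (0:ℝ) < m := by linarith
  have hmn : 1 ≤ m := by exact_mod_cast hm2.le
  let s : Fin (m + m) → ℕ := Fin.append (fun _ : Fin m => m) (fun _ : Fin m => m + 1)
  have hs : ∀ i, 0 < s i := by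
    intro i
    refine Fin.addCases (fun j => ?_) (fun j => ?_) i
    · simp only [s, Fin.append_left]; omega
    · simp only [s, Fin.append_right]; omega
  have hprod : ∏ i, s i = m ^ m * (m + 1) ^ m := by
    rw [Fin.prod_univ_add]; simp only [s, Fin.append_left, Fin.append_right]; simp
  have hcard : (box s).card = m ^ m * (m + 1) ^ m := by rw [card_box, hprod]
  have hN : (0:ℝ) < ((m ^ m * (m + 1) ^ m : ℕ) : ℝ) := by positivity
  refine ⟨m + m, 1 / (8 * m ^ 2), box s, by omega, by positivity, ?_, ?_, (bdry_box s hs).1, ?_, ?_⟩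
  · rw [div_lt_iff₀ hη] at hm3
    rw [div_lt_iff₀ (by positivity)]
    nlinarith [mul_pos hm0 hη]
  · rw [← Finset.card_pos, hcard]; positivity
  · refine (bdry_box s hs).2.trans ?_
    rw [hcard, hprod, Fin.sum_univ_add]
    set N : ℝ := ((m ^ m * (m + 1) ^ m : ℕ) : ℝ) with hNdef
    have e0 : N = ((m:ℝ) * (m + 1)) ^ m := by rw [hNdef]; push_cast; rw [mul_pow]
    set q : ℝ := √((m:ℝ) * (m + 1)) with hq
    have hq0 : 0 < q := Real.sqrt_pos.mpr (by positivity)
    have hq2 : q ^ 2 = m * (m + 1) := Real.sq_sqrt (by positivity)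
    have e1 : N ^ ((((m + m : ℕ) : ℝ) - 1) / ((m + m : ℕ) : ℝ)) = N / q := by
      have : ((((m + m : ℕ) : ℝ) - 1) / ((m + m : ℕ) : ℝ)) = 1 - (((m + m : ℕ) : ℝ))⁻¹ := by
        push_cast; field_simp
      rw [this, Real.rpow_sub hN, Real.rpow_one]
      congr 1
      have e2 : N = q ^ (m + m) := by rw [e0, ← hq2, ← pow_mul]; congr 1; ring
      rw [e2, Real.pow_rpow_inv_natCast hq0.le (by omega)]
    rw [e1]
    simp only [s, Fin.append_left, Fin.append_right, Finset.sum_const, Finset.card_univ,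
      Fintype.card_fin, nsmul_eq_mul]
    push_cast
    have key : (2 * m + 1) * q ≤ 2 * (m * (m + 1)) * (1 + 1 / (8 * (m:ℝ) ^ 2)) := by
      rw [← hq2]
      have h1 : (2 * (m:ℝ) + 1) ≤ 2 * q * (1 + 1 / (8 * (m:ℝ) ^ 2)) := by
        apply abs_le_of_sq_le_sq' _ (by positivity) |>.2
        have : (2 * q * (1 + 1 / (8 * (m:ℝ) ^ 2))) ^ 2
            = 4 * (m * (m + 1)) * (1 + 1 / (8 * (m:ℝ) ^ 2)) ^ 2 := by rw [← hq2]; ring
        rw [this]
        have h2 : (1 + 2 * (1 / (8 * (m:ℝ) ^ 2))) ≤ (1 + 1 / (8 * (m:ℝ) ^ 2)) ^ 2 := by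
          nlinarith [sq_nonneg (1 / (8 * (m:ℝ) ^ 2))]
        have h3 : (2 * (m:ℝ) + 1) ^ 2 ≤ 4 * (m * (m + 1)) * (1 + 2 * (1 / (8 * (m:ℝ) ^ 2))) := by
          have : 4 * ((m:ℝ) * (m + 1)) * (1 + 2 * (1 / (8 * (m:ℝ) ^ 2)))
              = 4 * (m * (m + 1)) + 1 + 1 / m := by field_simp; ring
          rw [this]
          have : (0:ℝ) ≤ 1 / m := by positivity
          nlinarith
        refine h3.trans ?_
        gcongr
      nlinarith
    have e3 : (m:ℝ) * (2 * (N / m)) + m * (2 * (N / (m + 1)))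
        = (2 * m * N / (q * (m * (m + 1)))) * ((2 * m + 1) * q) := by field_simp; ring
    have e4 : 2 * ((m:ℝ) + m) * (N / q) * (1 + 1 / (8 * (m:ℝ) ^ 2))
        = (2 * m * N / (q * (m * (m + 1)))) *
          (2 * (m * (m + 1)) * (1 + 1 / (8 * (m:ℝ) ^ 2))) := by field_simp; ring
    rw [e3, e4]
    gcongr
  · intro a k _
    have hsd : ((box s).card : ℝ) / 2 ≤ ((symmDiff (box s) (cube a k)).card : ℝ) := by
      have b1 : (box s).card ≤ (symmDiff (box s) (cube a k)).card + (cube a k).card := by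
        refine le_trans (Finset.card_le_card ?_) (Finset.card_union_le _ _)
        intro x hx
        simp only [Finset.mem_union, Finset.mem_symmDiff]; tauto
      have b2 : (cube a k).card ≤ (symmDiff (box s) (cube a k)).card + (box s).card := by
        refine le_trans (Finset.card_le_card ?_) (Finset.card_union_le _ _)
        intro x hx
        simp only [Finset.mem_union, Finset.mem_symmDiff]; tauto
      rw [card_cube] at b1 b2
      have b3 : (box s).card ≤ 2 * (symmDiff (box s) (cube a k)).card := by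
        rcases gap m k hmn with h | h <;> rw [← hcard] at h <;> omega
      have := (Nat.cast_le (α := ℝ)).mpr b3
      push_cast at this
      linarith
    refine lt_of_lt_of_le ?_ hsd
    have hpos : (0:ℝ) < (box s).card := by rw [hcard]; exact hN
    have h1 : c * √(((m + m : ℕ) : ℝ) * (1 / (8 * m ^ 2))) < 1 / 2 := by
      have e : (((m + m : ℕ) : ℝ) * (1 / (8 * m ^ 2))) = 1 / (4 * m) := by
        push_cast; field_simp; ring
      rw [e]
      apply lt_of_pow_lt_pow_left₀ 2 (by norm_num)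
      rw [mul_pow, Real.sq_sqrt (by positivity), mul_one_div, div_lt_iff₀ (by positivity)]
      linarith
    nlinarith

end Pool.Agent.Results.MP_5333ad_co.Boxes
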